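import Pool.Agent.R275.StepIso5

/-!
# Step-isometries of Banach spaces are homeomorphisms

A bijection between Banach spaces which preserves the integer part of all distances is a
homeomorphism. In particular every step-isometry of a Banach space is norm-continuous.
-/

namespace Pool.Agent.Results.MP_68c038_an.StepIsometryContinuous

/-- Let `X` and `Y` be real or complex Banach spaces and let `T : X → Y` be a bijection which
preserves the integer part of every distance. Then `T` is a homeomorphism. With `Y = X` this says
that every step-isometry of a Banach space is continuous (and so is its inverse). -/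
theorem result {𝕜 X Y : Type*} [RCLike 𝕜]
    [NormedAddCommGroup X] [NormedSpace 𝕜 X] [CompleteSpace X]
    [NormedAddCommGroup Y] [NormedSpace 𝕜 Y] [CompleteSpace Y]
    (T : X → Y) (hbij : Function.Bijective T)
    (hT : ∀ x y : X, ⌊‖x - y‖⌋ = ⌊‖T x - T y‖⌋) :
    Continuous T ∧ IsHomeomorph T := by
  let _ : NormedSpace ℝ X := NormedSpace.restrictScalars ℝ 𝕜 X
  let _ : NormedSpace ℝ Y := NormedSpace.restrictScalars ℝ 𝕜 Y
  let E : X ≃ Y := Equiv.ofBijective T hbij
  have hE : ∀ x, E x = T x := fun x => rfl
  have hstep : ∀ (k : ℕ) (x y : X), ‖x - y‖ < k ↔ ‖E x - E y‖ < k := by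
    intro k x y
    rw [hE, hE]
    have h1 := Int.floor_lt (a := ‖x - y‖) (z := (k : ℤ))
    have h2 := Int.floor_lt (a := ‖T x - T y‖) (z := (k : ℤ))
    push_cast at h1 h2
    rw [← h1, ← h2, hT x y]
  have hstep' : ∀ (k : ℕ) (x y : Y), ‖x - y‖ < k ↔ ‖E.symm x - E.symm y‖ < k := by
    intro k x y
    have := hstep k (E.symm x) (E.symm y)
    rw [Equiv.apply_symm_apply, Equiv.apply_symm_apply] at this
    exact this.symm
  have hc1 : Continuous E := Pool.Agent.R275.StepIso.continuous_of_step_two E hstep
  have hc2 : Continuous E.symm := Pool.Agent.R275.StepIso.continuous_of_step_two E.symm hstep'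
  let H : X ≃ₜ Y := { toEquiv := E, continuous_toFun := hc1, continuous_invFun := hc2 }
  exact ⟨hc1, H.isHomeomorph⟩

end Pool.Agent.Results.MP_68c038_an.StepIsometryContinuous
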